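import Pool.Agent.CP34.FIN

/-!
# MP_f8bb2d_pr: contact processes whose survival probability jumps at prescribed rates

Full positive answer to Q1. Definitions: `Pool/Agent/CP34/Contact.lean`.
-/

open scoped NNReal ENNReal

namespace Pool.Agent.Results.MP_f8bb2d_pr.PrescribedJumps

open Pool.Agent.CP34

/-- There is a countable connected graph of bounded degree on which, for every finite nonempty
initial set `A`, the survival probability of the contact process is discontinuous, as a function of
the infection rate, at every `lam i`. -/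
def JumpGraph {ι : Type} (lam : ι → ℝ≥0) : Prop :=
  ∃ (V : Type) (_ : Countable V) (_ : DecidableEq V) (G : SimpleGraph V) (_ : G.LocallyFinite),
    G.Connected ∧ (∃ Δ : ℕ, ∀ x, G.degree x ≤ Δ) ∧
    ∀ A : Finset V, A.Nonempty → ∀ i, ¬ ContinuousAt (fun l : ℝ≥0 => zeta G l A) (lam i)

theorem result :
    (∀ lam : ℕ → ℝ≥0, (∀ i, 0 < lam i) → StrictMono lam → (∀ i, (lam i : ℝ≥0∞) < lambdaC) →
      JumpGraph lam) ∧
    (∀ (n : ℕ) (lam : Fin n → ℝ≥0), 0 < n → (∀ i, 0 < lam i) → StrictMono lam →
      (∀ i, (lam i : ℝ≥0∞) < lambdaC) → JumpGraph lam) := by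
  refine ⟨fun lam hpos hmono hc => main_infinite hpos hmono hc, ?_⟩
  intro n lam hn hpos hmono hc
  obtain ⟨mu, h1, h2, h3, h4⟩ := fin_extend hpos hmono hn hc
  obtain ⟨V, hV, hD, G, hG, hconn, hdeg, hjump⟩ := main_infinite h1 h2 h3
  refine ⟨V, hV, hD, G, hG, hconn, hdeg, fun A hA i => ?_⟩
  rw [← h4 i]
  exact hjump A hA i

end Pool.Agent.Results.MP_f8bb2d_pr.PrescribedJumps
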